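import Mathlib

set_option autoImplicit false
open Finset Filter Topology MeasureTheory AddCircle
open scoped ComplexConjugate BoundedContinuousFunction

namespace Pool.Agent.V5helper2.CF

noncomputable section

abbrev Ci := AddCircle (1 : ℝ)

lemma int_fourier (k : ℤ) :
    ∫ t : Ci, fourier k t ∂haarAddCircle = if k = 0 then 1 else 0 := by
  split_ifs with h
  · subst h; simp
  · exact integral_eq_zero_of_add_right_eq_neg (fourier_add_half_inv_index h one_pos)

lemma fourier_pt_norm (k : ℤ) (t : Ci) : ‖fourier k t‖ = 1 := by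
  rw [fourier_apply]; exact Circle.norm_coe _

lemma fourier_pow (t : Ci) (n : ℕ) : (fourier (-1) t) ^ n = fourier (-(n : ℤ)) t := by
  induction n with
  | zero => simp
  | succ n ih =>
    rw [pow_succ, ih, ← fourier_add]
    congr 2
    push_cast; ring

/-- trigonometric sum -/
def S (a : ℕ → ℂ) (J : ℕ) (t : Ci) : ℂ := ∑ j ∈ range J, a j * fourier (-(j : ℤ)) t

lemma S_cont (a : ℕ → ℂ) (J : ℕ) : Continuous (S a J) := by
  unfold S
  exact continuous_finsetSum _ fun j _ => continuous_const.mul (fourier (-(j : ℤ))).continuous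

lemma S_sq (a : ℕ → ℂ) (J : ℕ) (t : Ci) : (((‖S a J t‖ ^ 2 : ℝ)) : ℂ) =
    ∑ j ∈ range J, ∑ j' ∈ range J, a j * conj (a j') * fourier ((j' : ℤ) - j) t := by
  have h1 : (((‖S a J t‖ ^ 2 : ℝ)) : ℂ) = S a J t * conj (S a J t) := by
    rw [Complex.mul_conj, Complex.normSq_eq_norm_sq]
  rw [h1]
  unfold S
  rw [map_sum, Finset.sum_mul_sum]
  refine Finset.sum_congr rfl fun j _ => Finset.sum_congr rfl fun j' _ => ?_
  rw [map_mul, ← fourier_neg, neg_neg, sub_eq_add_neg, fourier_add]
  ring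

/-- correlation moments -/
def mom (a : ℕ → ℂ) (J : ℕ) (k : ℤ) : ℂ :=
  (J : ℂ)⁻¹ * ∑ j ∈ range J, ∑ j' ∈ range J,
    a j * conj (a j') * (if ((j' : ℤ) - j) + k = 0 then 1 else 0)

/-- the density -/
def dens (a : ℕ → ℂ) (J : ℕ) (t : Ci) : ℝ := (J : ℝ)⁻¹ * ‖S a J t‖ ^ 2

lemma dens_nonneg (a : ℕ → ℂ) (J : ℕ) (t : Ci) : 0 ≤ dens a J t := by unfold dens; positivity

lemma dens_cont (a : ℕ → ℂ) (J : ℕ) : Continuous (dens a J) := by
  unfold dens
  exact continuous_const.mul ((S_cont a J).norm.pow 2)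

lemma int_dens (a : ℕ → ℂ) (J : ℕ) (k : ℤ) :
    ∫ t : Ci, (dens a J t : ℂ) * fourier k t ∂haarAddCircle = mom a J k := by
  have h1 : ∀ t : Ci, (dens a J t : ℂ) * fourier k t = (J : ℂ)⁻¹ * ∑ j ∈ range J, ∑ j' ∈ range J,
      (a j * conj (a j')) * fourier (((j' : ℤ) - j) + k) t := by
    intro t
    unfold dens
    rw [Complex.ofReal_mul, S_sq]
    push_cast
    rw [mul_assoc, Finset.sum_mul]
    congr 1
    refine Finset.sum_congr rfl fun j _ => ?_
    rw [Finset.sum_mul]
    refine Finset.sum_congr rfl fun j' _ => ?_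
    rw [fourier_add]; ring
  simp_rw [h1]
  have hint : ∀ m : ℤ, Integrable (fun t : Ci => fourier m t) haarAddCircle := fun m =>
    (fourier m).continuous.integrable_of_hasCompactSupport
      (HasCompactSupport.of_compactSpace _)
  rw [integral_const_mul, integral_finsetSum _ fun j _ =>
    integrable_finsetSum _ fun j' _ => (hint _).const_mul _]
  unfold mom
  congr 1
  refine Finset.sum_congr rfl fun j _ => ?_
  rw [integral_finsetSum _ fun j' _ => (hint _).const_mul _]
  refine Finset.sum_congr rfl fun j' _ => ?_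
  rw [integral_const_mul, int_fourier]

lemma mom_zero_le (a : ℕ → ℂ) (ha : ∀ n, ‖a n‖ ≤ 1) (J : ℕ) : ‖mom a J 0‖ ≤ 1 := by
  unfold mom
  rw [norm_mul, norm_inv, Complex.norm_natCast]
  rcases Nat.eq_zero_or_pos J with h | h
  · subst h; simp
  have hJ0 : (0 : ℝ) < J := by exact_mod_cast h
  rw [inv_mul_le_iff₀ hJ0, mul_one]
  refine (norm_sum_le _ _).trans ?_
  calc ∑ j ∈ range J, ‖∑ j' ∈ range J, a j * conj (a j') *
          (if ((j' : ℤ) - j) + 0 = 0 then 1 else 0)‖
      ≤ ∑ j ∈ range J, (1 : ℝ) := by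
        refine Finset.sum_le_sum fun j hj => ?_
        have e1 : ∀ j' ∈ range J, a j * conj (a j') *
          (if ((j' : ℤ) - j) + 0 = 0 then (1 : ℂ) else 0) =
            if j' = j then a j * conj (a j') else 0 := by
          intro j' _
          by_cases h : j' = j
          · subst h; simp
          · have : ¬ ((j' : ℤ) - j) + 0 = 0 := by omega
            rw [if_neg this, if_neg h, mul_zero]
        rw [Finset.sum_congr rfl e1, Finset.sum_ite_eq' (range J) j, if_pos hj, norm_mul,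
          RCLike.norm_conj]
        exact mul_le_one₀ (ha _) (norm_nonneg _) (ha _)
    _ = J := by simp

/-- the finite measures -/
def rhoM (a : ℕ → ℂ) (J : ℕ) : Measure Ci :=
  haarAddCircle.withDensity fun t => ENNReal.ofReal (dens a J t)

lemma int_rho (a : ℕ → ℂ) (J : ℕ) (f : Ci → ℂ) :
    ∫ t, f t ∂(rhoM a J) = ∫ t, (dens a J t : ℂ) * f t ∂haarAddCircle := by
  unfold rhoM
  rw [integral_withDensity_eq_integral_toReal_smul
    ((dens_cont a J).measurable.ennreal_ofReal) (Eventually.of_forall fun t => ENNReal.ofReal_lt_top)]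
  refine integral_congr_ae (Eventually.of_forall fun t => ?_)
  simp only
  rw [ENNReal.toReal_ofReal (dens_nonneg a J t), Complex.real_smul]

lemma rho_univ (a : ℕ → ℂ) (ha : ∀ n, ‖a n‖ ≤ 1) (J : ℕ) : rhoM a J Set.univ ≤ 1 := by
  unfold rhoM
  rw [withDensity_apply _ MeasurableSet.univ, Measure.restrict_univ,
    ← ofReal_integral_eq_lintegral_ofReal
      ((dens_cont a J).integrable_of_hasCompactSupport (HasCompactSupport.of_compactSpace _))
      (Eventually.of_forall (dens_nonneg a J))]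
  rw [← ENNReal.ofReal_one]
  refine ENNReal.ofReal_le_ofReal ?_
  have h1 := int_dens a J 0
  simp only [fourier_zero, mul_one] at h1
  rw [integral_complex_ofReal] at h1
  have h2 := mom_zero_le a ha J
  rw [← h1, Complex.norm_real] at h2
  exact (le_abs_self _).trans h2

/-- bundled -/
def rho (a : ℕ → ℂ) (ha : ∀ n, ‖a n‖ ≤ 1) (J : ℕ) : FiniteMeasure Ci :=
  ⟨rhoM a J, ⟨lt_of_le_of_lt (rho_univ a ha J) ENNReal.one_lt_top⟩⟩

lemma mom_close (a : ℕ → ℂ) (ha : ∀ n, ‖a n‖ ≤ 1) (J k : ℕ) :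
    ‖mom a J k - (J : ℂ)⁻¹ * ∑ j ∈ range J, a (j + k) * conj (a j)‖ ≤ (J : ℝ)⁻¹ * k := by
  unfold mom
  rw [← mul_sub, norm_mul, norm_inv, Complex.norm_natCast]
  refine mul_le_mul_of_nonneg_left ?_ (by positivity)
  rw [Finset.sum_comm]
  have e1 : ∀ j' ∈ range J, ∑ j ∈ range J, a j * conj (a j') *
      (if ((j' : ℤ) - j) + (k : ℤ) = 0 then (1 : ℂ) else 0) =
      if j' + k < J then a (j' + k) * conj (a j') else 0 := by
    intro j' _
    have e2 : ∀ j ∈ range J, a j * conj (a j') *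
      (if ((j' : ℤ) - j) + (k : ℤ) = 0 then (1 : ℂ) else 0) =
        if j = j' + k then a j * conj (a j') else 0 := by
      intro j _
      by_cases h : j = j' + k
      · subst h
        have : ((j' : ℤ) - ((j' + k : ℕ) : ℤ)) + (k : ℤ) = 0 := by push_cast; ring
        rw [if_pos this, if_pos rfl, mul_one]
      · have : ¬ ((j' : ℤ) - j) + (k : ℤ) = 0 := by omega
        rw [if_neg this, if_neg h, mul_zero]
    rw [Finset.sum_congr rfl e2, Finset.sum_ite_eq' (range J) (j' + k)]
    simp only [mem_range]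
  rw [Finset.sum_congr rfl e1, ← Finset.sum_sub_distrib]
  refine (norm_sum_le _ _).trans ?_
  have e3 : ∀ j ∈ range J, ‖(if j + k < J then a (j + k) * conj (a j) else 0) -
      a (j + k) * conj (a j)‖ ≤ if J ≤ j + k then 1 else 0 := by
    intro j _
    by_cases h : j + k < J
    · rw [if_pos h, if_neg (by omega)]; simp
    · rw [if_neg h, if_pos (by omega), zero_sub, norm_neg, norm_mul, RCLike.norm_conj]
      exact mul_le_one₀ (ha _) (norm_nonneg _) (ha _)
  refine (Finset.sum_le_sum e3).trans ?_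
  rw [← Finset.sum_filter, Finset.sum_const, nsmul_eq_mul, mul_one]
  have : ((range J).filter fun j => J ≤ j + k).card ≤ k := by
    have hsub : (range J).filter (fun j => J ≤ j + k) ⊆ Finset.Ico (J - k) J := by
      intro j hj
      simp only [mem_filter, mem_range] at hj
      rw [Finset.mem_Ico]; omega
    refine (Finset.card_le_card hsub).trans ?_
    rw [Nat.card_Ico]; omega
  exact_mod_cast this

/-- the Toeplitz symbol -/
def Gam (γ : ℕ → ℂ) (n m : ℕ) : ℂ := if m ≤ n then γ (n - m) else conj (γ (m - n))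

theorem det (a : ℕ → ℂ) (ha : ∀ n, ‖a n‖ ≤ 1) (γ : ℕ → ℂ) (J : ℕ → ℕ)
    (hJ : Tendsto J atTop atTop)
    (hγ : ∀ k, Tendsto (fun i => ((J i : ℕ) : ℂ)⁻¹ * ∑ j ∈ range (J i), a (j + k) * conj (a j))
      atTop (𝓝 (γ k)))
    (N : ℕ → ℕ) (hN : ∀ z : ℂ, ‖z‖ = 1 → Tendsto (fun i => ((N i : ℕ) : ℂ)⁻¹ *
      ∑ n ∈ range (N i), z ^ n * a n) atTop (𝓝 0)) :
    Tendsto (fun i => (((N i : ℕ) : ℂ) ^ 2)⁻¹ * ∑ n ∈ range (N i), ∑ m ∈ range (N i),
      a n * conj (a m) * conj (Gam γ n m)) atTop (𝓝 0) := by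
  -- the limit measure
  set 𝒰 : Ultrafilter ℕ := Ultrafilter.of atTop with h𝒰
  have h𝒰le : (𝒰 : Filter ℕ) ≤ atTop := Ultrafilter.of_le _
  obtain ⟨ρ, -, hρ⟩ : ∃ ρ : FiniteMeasure Ci, ρ ∈ {μ : FiniteMeasure Ci | μ.mass ≤ 1} ∧
      Tendsto (fun i => rho a ha (J i)) 𝒰 (𝓝 ρ) := by
    have hc := isCompact_setOfPred_finiteMeasure_le_of_compactSpace Ci 1
    have := hc.ultrafilter_le_nhds (𝒰.map fun i => rho a ha (J i)) (by
      rw [le_principal_iff]
      refine Filter.univ_mem' (f := (𝒰 : Filter ℕ)) fun i => ?_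
      change (rho a ha (J i)).mass ≤ 1
      rw [← ENNReal.coe_le_coe, FiniteMeasure.ennreal_mass]
      exact rho_univ a ha (J i))
    obtain ⟨ρ, h1, h2⟩ := this
    exact ⟨ρ, h1, h2⟩
  have hmomlim : ∀ k : ℤ, Tendsto (fun i => mom a (J i) k) 𝒰
      (𝓝 (∫ t, fourier k t ∂(ρ : Measure Ci))) := by
    intro k
    have h1 := (FiniteMeasure.tendsto_iff_forall_integral_rclike_tendsto ℂ).1 hρ
      (BoundedContinuousFunction.mkOfCompact (fourier k))
    refine h1.congr fun i => ?_
    have h2 : ((rho a ha (J i) : FiniteMeasure Ci) : Measure Ci) = rhoM a (J i) := rfl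
    rw [h2]
    simp only [BoundedContinuousFunction.mkOfCompact_apply]
    rw [int_rho, int_dens]
  have hnat : ∀ k : ℕ, ∫ t, fourier (k : ℤ) t ∂(ρ : Measure Ci) = γ k := by
    intro k
    refine tendsto_nhds_unique (hmomlim k) ?_
    have h1 : Tendsto (fun i => mom a (J i) k - ((J i : ℕ) : ℂ)⁻¹ *
        ∑ j ∈ range (J i), a (j + k) * conj (a j)) atTop (𝓝 0) := by
      refine squeeze_zero_norm (fun i => mom_close a ha (J i) k) ?_
      have h2 : Tendsto (fun i => ((J i : ℕ) : ℝ)⁻¹) atTop (𝓝 0) :=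
        tendsto_inv_atTop_zero.comp (tendsto_natCast_atTop_atTop.comp hJ)
      simpa using h2.mul_const (k : ℝ)
    have h3 := h1.add (hγ k)
    simp only [sub_add_cancel, zero_add] at h3
    exact h3.mono_left h𝒰le
  have hint : ∀ m : ℤ, Integrable (fun t : Ci => fourier m t) (ρ : Measure Ci) := fun m =>
    (fourier m).continuous.integrable_of_hasCompactSupport
      (HasCompactSupport.of_compactSpace _)
  have hGam : ∀ n m : ℕ, conj (Gam γ n m) = ∫ t, fourier ((m : ℤ) - n) t ∂(ρ : Measure Ci) := by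
    intro n m
    unfold Gam
    split_ifs with h
    · rw [← hnat, ← integral_conj]
      refine integral_congr_ae (Eventually.of_forall fun t => ?_)
      simp only
      rw [← fourier_neg]
      congr 2
      push_cast [h]; ring
    · rw [Complex.conj_conj, ← hnat]
      refine integral_congr_ae (Eventually.of_forall fun t => ?_)
      have e : (((m - n : ℕ)) : ℤ) = (m : ℤ) - n := by push_cast [(not_le.1 h).le]; ring
      simp only [e]
  -- the identity
  have hid : ∀ i, (((N i : ℕ) : ℂ) ^ 2)⁻¹ * ∑ n ∈ range (N i), ∑ m ∈ range (N i),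
      a n * conj (a m) * conj (Gam γ n m) =
      ((∫ t, ‖((N i : ℕ) : ℂ)⁻¹ * S a (N i) t‖ ^ 2 ∂(ρ : Measure Ci) : ℝ) : ℂ) := by
    intro i
    rw [← integral_complex_ofReal]
    have h1 : ∀ t : Ci, ((‖((N i : ℕ) : ℂ)⁻¹ * S a (N i) t‖ ^ 2 : ℝ) : ℂ) =
        (((N i : ℕ) : ℂ) ^ 2)⁻¹ * ∑ n ∈ range (N i), ∑ m ∈ range (N i),
          (a n * conj (a m)) * fourier ((m : ℤ) - n) t := by
      intro t
      rw [norm_mul, mul_pow, Complex.ofReal_mul, S_sq, norm_inv, Complex.norm_natCast]
      push_cast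
      rw [inv_pow]
    simp_rw [h1]
    rw [integral_const_mul, integral_finsetSum _ fun j _ =>
      integrable_finsetSum _ fun j' _ => (hint _).const_mul _]
    congr 1
    refine Finset.sum_congr rfl fun n _ => ?_
    rw [integral_finsetSum _ fun j' _ => (hint _).const_mul _]
    refine Finset.sum_congr rfl fun m _ => ?_
    rw [integral_const_mul, hGam]
  simp_rw [hid]
  have hlim : Tendsto (fun i => ∫ t, ‖((N i : ℕ) : ℂ)⁻¹ * S a (N i) t‖ ^ 2 ∂(ρ : Measure Ci))
      atTop (𝓝 (∫ t, (0 : ℝ) ∂(ρ : Measure Ci))) := by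
    refine tendsto_integral_of_dominated_convergence (fun _ => (1 : ℝ)) (fun i => ?_)
      (integrable_const _) (fun i => Eventually.of_forall fun t => ?_)
      (Eventually.of_forall fun t => ?_)
    · exact ((continuous_const.mul (S_cont a (N i))).norm.pow 2).aestronglyMeasurable
    · rw [Real.norm_of_nonneg (by positivity)]
      refine pow_le_one₀ (norm_nonneg _) ?_
      rw [norm_mul, norm_inv, Complex.norm_natCast]
      rcases Nat.eq_zero_or_pos (N i) with h | h
      · rw [h]; simp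
      have hN0 : (0 : ℝ) < (N i : ℕ) := by exact_mod_cast h
      rw [inv_mul_le_iff₀ hN0, mul_one]
      unfold S
      refine (norm_sum_le _ _).trans ?_
      calc ∑ j ∈ range (N i), ‖a j * fourier (-(j : ℤ)) t‖ ≤ ∑ j ∈ range (N i), (1 : ℝ) := by
            refine Finset.sum_le_sum fun j _ => ?_
            rw [norm_mul, fourier_pt_norm, mul_one]; exact ha j
        _ = (N i : ℕ) := by simp
    · have h1 := hN (fourier (-1) t) (fourier_pt_norm _ _)
      have h2 : ∀ i, ((N i : ℕ) : ℂ)⁻¹ * ∑ n ∈ range (N i), (fourier (-1) t) ^ n * a n =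
          ((N i : ℕ) : ℂ)⁻¹ * S a (N i) t := by
        intro i
        unfold S
        congr 1
        refine Finset.sum_congr rfl fun n _ => ?_
        rw [mul_comm, fourier_pow]
      have h3 := (h1.congr h2).norm.pow 2
      simpa using h3
  have h9 := (Complex.continuous_ofReal.tendsto _).comp hlim
  simpa [Function.comp_def] using h9

end

end Pool.Agent.V5helper2.CF
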