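import Mathlib
import Pool.Agent.Helper498.NCR.Final

set_option autoImplicit false
open Finset Filter Topology MeasureTheory
open scoped ComplexConjugate ENNReal

namespace Pool.Agent.V5helper2.CF

open Pool.Agent.Helper498.NCR

noncomputable section

variable {Ω : Type*} [MeasurableSpace Ω] {μ : Measure Ω} [IsProbabilityMeasure μ]

lemma ae_tendsto_zero_of_small (h : ℕ → Lp ℂ 2 μ) (hh : ∀ i, ‖h i‖ ≤ (1 / 2 : ℝ) ^ i) :
    ∀ᵐ x ∂μ, Tendsto (fun i => h i x) atTop (𝓝 0) := by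
  have h1 : ∀ i, ∫⁻ x, ‖h i x‖ₑ ∂μ ≤ ENNReal.ofReal ((1 / 2 : ℝ) ^ i) := by
    intro i
    have e1 : ∫⁻ x, ‖h i x‖ₑ ∂μ = eLpNorm (h i) 1 μ := eLpNorm_one_eq_lintegral_enorm.symm
    rw [e1]
    calc eLpNorm (h i) 1 μ ≤ eLpNorm (h i) 2 μ :=
          eLpNorm_le_eLpNorm_of_exponent_le (by norm_num) (Lp.aestronglyMeasurable _)
      _ = ENNReal.ofReal ‖h i‖ := by
          rw [Lp.norm_def, ENNReal.ofReal_toReal (Lp.eLpNorm_ne_top _)]
      _ ≤ _ := ENNReal.ofReal_le_ofReal (hh i)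
  have hm : ∀ i, AEMeasurable (fun x => ‖h i x‖ₑ) μ := fun i =>
    (Lp.stronglyMeasurable (h i)).measurable.enorm.aemeasurable
  have h2 : ∫⁻ x, ∑' i, ‖h i x‖ₑ ∂μ ≠ ⊤ := by
    rw [lintegral_tsum hm]
    have h3 : ∑' i, ∫⁻ x, ‖h i x‖ₑ ∂μ ≤ ∑' i, ENNReal.ofReal ((1 / 2 : ℝ) ^ i) :=
      ENNReal.tsum_le_tsum h1
    rw [← ENNReal.ofReal_tsum_of_nonneg (fun n => by positivity) summable_geometric_two] at h3
    exact ne_top_of_le_ne_top ENNReal.ofReal_ne_top h3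
  have h4 := ae_lt_top' (AEMeasurable.tsum hm) h2
  filter_upwards [h4] with x hx
  have h5 := ENNReal.tendsto_atTop_zero_of_tsum_ne_top hx.ne
  rw [tendsto_zero_iff_enorm_tendsto_zero]
  exact h5

theorem common_subseq (F : ℕ → ℕ → Lp ℂ 2 μ) (hF : ∀ k, Tendsto (F k) atTop (𝓝 0)) :
    ∃ J : ℕ → ℕ, (∀ i, i ≤ J i) ∧
      ∀ᵐ x ∂μ, ∀ k, Tendsto (fun i => F k (J i) x) atTop (𝓝 0) := by
  have h1 : ∀ i : ℕ, ∃ j : ℕ, i ≤ j ∧ ∀ k ∈ range (i + 1), ‖F k j‖ ≤ (1 / 2 : ℝ) ^ i := by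
    intro i
    have h2 : ∀ᶠ j in atTop, ∀ k ∈ range (i + 1), ‖F k j‖ ≤ (1 / 2 : ℝ) ^ i := by
      rw [Filter.eventually_all_finset]
      intro k _
      have h3 : Tendsto (fun j => ‖F k j‖) atTop (𝓝 0) := by simpa using (hF k).norm
      exact (h3.eventually (gt_mem_nhds (show (0 : ℝ) < (1 / 2 : ℝ) ^ i by positivity))).mono
        fun j hj => hj.le
    obtain ⟨j, hj1, hj2⟩ := ((eventually_ge_atTop i).and h2).exists
    exact ⟨j, hj1, hj2⟩
  choose J hJ1 hJ2 using h1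
  refine ⟨J, hJ1, ?_⟩
  rw [ae_all_iff]
  intro k
  have h5 := ae_tendsto_zero_of_small (fun i => F k (J (i + k))) fun i => by
    refine (hJ2 (i + k) k (mem_range.2 (by omega))).trans ?_
    exact pow_le_pow_of_le_one (by norm_num) (by norm_num) (by omega)
  filter_upwards [h5] with x hx
  exact (tendsto_add_atTop_iff_nat k).1 hx

/-- mean ergodic theorem in the form needed -/
theorem mean_erg {E : Type*} [NormedAddCommGroup E] [InnerProductSpace ℂ E] [CompleteSpace E]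
    (U : E →ₗᵢ[ℂ] E) (x : E) :
    ∃ p : E, (∀ m : ℕ, inner ℂ p ((U ^ m) x) = ((‖p‖ ^ 2 : ℝ) : ℂ)) ∧
      Tendsto (fun J : ℕ => (J : ℂ)⁻¹ • ∑ j ∈ range J, (U ^ j) x) atTop (𝓝 p) := by
  have hf1 : ‖U.toContinuousLinearMap‖ ≤ 1 := by
    refine ContinuousLinearMap.opNorm_le_bound _ zero_le_one fun y => ?_
    simp
  have h := U.toContinuousLinearMap.tendsto_birkhoffAverage_orthogonalProjection hf1 x
  set P : E := ((U.toContinuousLinearMap.eqLocus
    (1 : E →L[ℂ] E)).orthogonalProjectionOnto x : E) with hP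
  have hPfix : U P = P := by
    have hmem : P ∈ (U.toContinuousLinearMap.eqLocus
      (1 : E →L[ℂ] E)) := ((U.toContinuousLinearMap.eqLocus
      (1 : E →L[ℂ] E)).orthogonalProjectionOnto x).2
    exact hmem
  have hAlim : Tendsto (fun J : ℕ => (J : ℂ)⁻¹ • ∑ j ∈ range J, (U ^ j) x) atTop (𝓝 P) := by
    refine h.congr fun J => ?_
    simp only [birkhoffAverage, birkhoffSum, _root_.id]
    congr 1
    refine Finset.sum_congr rfl fun j _ => ?_
    rw [LinearIsometry.coe_pow]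
    rfl
  have hpow : ∀ m : ℕ, (U ^ m) P = P := by
    intro m
    induction m with
    | zero => simp
    | succ m ih => rw [U_pow_succ, ih, hPfix]
  have hin : ∀ m : ℕ, inner ℂ P ((U ^ m) x) = inner ℂ P x := by
    intro m
    conv_lhs => rw [← hpow m]
    exact LinearIsometry.inner_map_map _ _ _
  have hin2 : inner ℂ P x = inner ℂ P P := by
    have h1 : Tendsto (fun J : ℕ => inner ℂ P ((J : ℂ)⁻¹ • ∑ j ∈ range J, (U ^ j) x)) atTop
        (𝓝 (inner ℂ P P)) := tendsto_const_nhds.inner hAlim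
    have h2 : Tendsto (fun J : ℕ => inner ℂ P ((J : ℂ)⁻¹ • ∑ j ∈ range J, (U ^ j) x)) atTop
        (𝓝 (inner ℂ P x)) := by
      refine tendsto_const_nhds.congr' ?_
      filter_upwards [eventually_ge_atTop 1] with J hJ
      rw [inner_smul_right, inner_sum, Finset.sum_congr rfl fun j _ => hin j, Finset.sum_const,
        card_range, nsmul_eq_mul, inv_mul_cancel_left₀]
      exact_mod_cast (by omega : J ≠ 0)
    exact tendsto_nhds_unique h2 h1
  refine ⟨P, fun m => ?_, hAlim⟩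
  rw [hin, hin2, inner_self_eq_norm_sq_to_K]
  simp

end

end Pool.Agent.V5helper2.CF
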