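import Mathlib
import Pool.Agent.Helper498.NCR.Final
import Pool.Agent.V5helper2.CF.Det
import Pool.Agent.V5helper2.CF.Sub

set_option autoImplicit false
open Finset Filter Topology MeasureTheory
open scoped ComplexConjugate ENNReal

namespace Pool.Agent.V5helper2.CF

open Pool.Agent.Helper498.NCR

noncomputable section

variable {Ω : Type*} [MeasurableSpace Ω] {μ : Measure Ω} [IsProbabilityMeasure μ]

/-- the correlation function -/
def Gk (T : Ω → Ω) (g : Ω → ℂ) (k : ℕ) (x : Ω) : ℂ := g (T^[k] x) * conj (g x)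

lemma Gk_meas {T : Ω → Ω} (hT : Measurable T) {g : Ω → ℂ} (hg : Measurable g) (k : ℕ) :
    Measurable (Gk T g k) :=
  (hg.comp (hT.iterate k)).mul (Complex.continuous_conj.measurable.comp hg)

omit [MeasurableSpace Ω] in
lemma Gk_bdd (T : Ω → Ω) {g : Ω → ℂ} (hg1 : ∀ x, ‖g x‖ ≤ 1) (k : ℕ) (x : Ω) :
    ‖Gk T g k x‖ ≤ 1 := by
  unfold Gk
  rw [norm_mul, RCLike.norm_conj]
  exact mul_le_one₀ (hg1 _) (norm_nonneg _) (hg1 _)

omit [MeasurableSpace Ω] in
lemma Gk_iter (T : Ω → Ω) (g : Ω → ℂ) (k m : ℕ) (x : Ω) :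
    Gk T g k (T^[m] x) = g (T^[m + k] x) * conj (g (T^[m] x)) := by
  unfold Gk
  rw [← Function.iterate_add_apply, add_comm k m]

/-- coordinate form of an average -/
lemma avg_coe {T : Ω → Ω} (hT : MeasurePreserving T μ μ) {f : Ω → ℂ} (hf : MemLp f 2 μ)
    (l : ℂ) (N : ℕ) : ⇑(tavg (koop hT) l N (hf.toLp f)) =ᵐ[μ]
      fun x => (N : ℂ)⁻¹ * ∑ n ∈ range N, l ^ n * f (T^[n] x) := by
  have h1 : ∀ j : ℕ, ⇑((koop hT ^ j) (hf.toLp f)) =ᵐ[μ] fun x => f (T^[j] x) := by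
    intro j
    rw [koop_pow_toLp]
    exact MemLp.coeFn_toLp _
  have h4 : ∀ᵐ x ∂μ, ∀ j : ℕ, (l ^ j • (koop hT ^ j) (hf.toLp f) : Lp ℂ 2 μ) x =
      l ^ j * f (T^[j] x) := by
    rw [ae_all_iff]; intro j
    filter_upwards [h1 j, Lp.coeFn_smul (l ^ j) ((koop hT ^ j) (hf.toLp f))] with x g1 g2
    rw [g2, Pi.smul_apply, g1, smul_eq_mul]
  unfold tavg
  filter_upwards [h4, Lp.coeFn_smul ((N : ℂ)⁻¹) (∑ n ∈ range N, l ^ n •
    (koop hT ^ n) (hf.toLp f)), Lp.coeFn_finsetSum (range N)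
      (fun n => l ^ n • (koop hT ^ n) (hf.toLp f))] with x g1 g2 g3
  rw [g2, Pi.smul_apply, g3, Finset.sum_apply, smul_eq_mul]
  congr 1
  exact Finset.sum_congr rfl fun j _ => g1 j

lemma tavg_one {E : Type*} [NormedAddCommGroup E] [InnerProductSpace ℂ E] (U : E →ₗᵢ[ℂ] E)
    (x : E) (N : ℕ) : tavg U 1 N x = (N : ℂ)⁻¹ • ∑ j ∈ range N, (U ^ j) x := by
  unfold tavg
  simp

/-- integral of one Toeplitz term -/
lemma pair_int {T : Ω → Ω} (hT : MeasurePreserving T μ μ) {g : Ω → ℂ} (hg : Measurable g)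
    (hg1 : ∀ x, ‖g x‖ ≤ 1) (p : ℕ → Lp ℂ 2 μ)
    (hp : ∀ k m, inner ℂ (p k) ((koop hT ^ m) ((memLp_bdd (μ := μ) (Gk_meas hT.measurable hg k)
      (Gk_bdd T hg1 k)).toLp (Gk T g k))) = ((‖p k‖ ^ 2 : ℝ) : ℂ)) (n m : ℕ) :
    ∫ x, g (T^[n] x) * conj (g (T^[m] x)) * conj (Gam (fun k => p k x) n m) ∂μ =
      ((‖p (dd n m)‖ ^ 2 : ℝ) : ℂ) := by
  have key : ∀ n m : ℕ, m ≤ n →
      ∫ x, g (T^[n] x) * conj (g (T^[m] x)) * conj (p (n - m) x) ∂μ =
        ((‖p (n - m)‖ ^ 2 : ℝ) : ℂ) := by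
    intro n m hnm
    rw [← hp (n - m) m, inner_eq]
    refine integral_congr_ae ?_
    have h1 : ⇑((koop hT ^ m) ((memLp_bdd (μ := μ) (Gk_meas hT.measurable hg (n - m))
      (Gk_bdd T hg1 (n - m))).toLp (Gk T g (n - m)))) =ᵐ[μ] fun x => Gk T g (n - m) (T^[m] x) := by
      rw [koop_pow_toLp]
      exact MemLp.coeFn_toLp _
    filter_upwards [h1] with x hx
    rw [hx, Gk_iter, Nat.add_sub_cancel' hnm]
    ring
  unfold Gam
  by_cases h : m ≤ n
  · simp only [if_pos h]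
    have : dd n m = n - m := by unfold dd; omega
    rw [this]
    exact key n m h
  · simp only [if_neg h]
    have : dd n m = m - n := by unfold dd; omega
    rw [this]
    have h2 := key m n (not_le.1 h).le
    have h3 : ∫ x, g (T^[n] x) * conj (g (T^[m] x)) * conj (conj (p (m - n) x)) ∂μ =
        conj (∫ x, g (T^[m] x) * conj (g (T^[n] x)) * conj (p (m - n) x) ∂μ) := by
      rw [← integral_conj]
      refine integral_congr_ae (Eventually.of_forall fun x => ?_)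
      simp only [map_mul, Complex.conj_conj]
      ring
    rw [h3, h2, Complex.conj_ofReal]

/-- the frequency condition for one function: outside a countable set of frequencies all
Fourier averages along almost every orbit vanish -/
def FreqCond (μ : Measure Ω) (T : Ω → Ω) (g : Ω → ℂ) : Prop :=
  ∃ Λ : Set ℂ, Λ.Countable ∧ ∀ᵐ x ∂μ, ∀ z : ℂ, ‖z‖ = 1 → z ∉ Λ →
    Tendsto (fun N : ℕ => (N : ℂ)⁻¹ * ∑ n ∈ range N, z ^ n * g (T^[n] x)) atTop (𝓝 0)

/-- weaker form of the frequency condition: the averages are only controlled along sequences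
along which countably many auxiliary functions tend to zero -/
def FreqCond2 (μ : Measure Ω) (T : Ω → Ω) (g : Ω → ℂ) : Prop :=
  ∃ Λ : Set ℂ, Λ.Countable ∧ ∃ K : ℕ → ℕ → Lp ℂ 2 μ, (∀ k, Tendsto (K k) atTop (𝓝 0)) ∧
    ∀ᵐ x ∂μ, ∀ N : ℕ → ℕ, Tendsto N atTop atTop →
      (∀ k, Tendsto (fun i => K k (N i) x) atTop (𝓝 0)) → ∀ z : ℂ, ‖z‖ = 1 → z ∉ Λ →
      Tendsto (fun i => ((N i : ℕ) : ℂ)⁻¹ * ∑ n ∈ range (N i), z ^ n * g (T^[n] x)) atTop (𝓝 0)

theorem toeplitz_small {T : Ω → Ω} (hT : MeasurePreserving T μ μ) {g : Ω → ℂ} (hg : Measurable g)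
    (hg1 : ∀ x, ‖g x‖ ≤ 1)
    (horth : (memLp_bdd (μ := μ) hg hg1).toLp g ∈ (EigSpan (koop hT))ᗮ)
    (hfreq : FreqCond2 μ T g) (p : ℕ → Lp ℂ 2 μ)
    (hp : ∀ k m, inner ℂ (p k) ((koop hT ^ m) ((memLp_bdd (μ := μ) (Gk_meas hT.measurable hg k)
      (Gk_bdd T hg1 k)).toLp (Gk T g k))) = ((‖p k‖ ^ 2 : ℝ) : ℂ))
    (hlim : ∀ k, Tendsto (fun J : ℕ => tavg (koop hT) 1 J ((memLp_bdd (μ := μ)
      (Gk_meas hT.measurable hg k) (Gk_bdd T hg1 k)).toLp (Gk T g k))) atTop (𝓝 (p k)))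
    (ε : ℝ) (hε : 0 < ε) :
    ∃ N : ℕ, 1 ≤ N ∧ ((N : ℝ) ^ 2)⁻¹ * ∑ n ∈ range N, ∑ m ∈ range N, ‖p (dd n m)‖ ^ 2 ≤ ε := by
  set U := koop hT with hU
  set X : ℕ → Lp ℂ 2 μ := fun k => (memLp_bdd (μ := μ)
      (Gk_meas hT.measurable hg k) (Gk_bdd T hg1 k)).toLp (Gk T g k) with hX
  -- first subsequence
  obtain ⟨J, hJ1, hJ2⟩ := common_subseq (μ := μ) (fun k J => tavg U 1 J (X k) - p k) fun k => by
    simpa using (hlim k).sub_const (p k)
  have hJlim : Tendsto J atTop atTop := tendsto_atTop_mono hJ1 tendsto_id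
  have hcorr : ∀ᵐ x ∂μ, ∀ k, Tendsto (fun i => ((J i : ℕ) : ℂ)⁻¹ *
      ∑ j ∈ range (J i), g (T^[j + k] x) * conj (g (T^[j] x))) atTop (𝓝 (p k x)) := by
    have e1 : ∀ᵐ x ∂μ, ∀ k i, (tavg U 1 (J i) (X k) - p k : Lp ℂ 2 μ) x =
        ((J i : ℕ) : ℂ)⁻¹ * ∑ j ∈ range (J i), g (T^[j + k] x) * conj (g (T^[j] x)) - p k x := by
      rw [ae_all_iff]; intro k
      rw [ae_all_iff]; intro i
      filter_upwards [Lp.coeFn_sub (tavg U 1 (J i) (X k)) (p k), avg_coe hT (memLp_bdd (μ := μ)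
        (Gk_meas hT.measurable hg k) (Gk_bdd T hg1 k)) 1 (J i)] with x h1 h2
      rw [h1, Pi.sub_apply]
      congr 1
      rw [hX, hU]
      refine h2.trans ?_
      congr 1
      refine Finset.sum_congr rfl fun j _ => ?_
      rw [one_pow, one_mul, Gk_iter]
    filter_upwards [hJ2, e1] with x h1 h2 k
    have h3 := (h1 k).add_const (p k x)
    simp only [h2, sub_add_cancel, zero_add] at h3
    exact h3
  -- second subsequence
  obtain ⟨Λ, hΛ, K, hK, hfr⟩ := hfreq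
  obtain ⟨f, hf⟩ := (hΛ.union (Set.countable_singleton (1 : ℂ))).exists_eq_range
    ⟨1, Or.inr rfl⟩
  classical
  set l : ℕ → ℂ := fun k => if ‖f k‖ = 1 then f k else 1 with hl
  have hl1 : ∀ k, ‖l k‖ = 1 := by
    intro k
    simp only [hl]
    split_ifs with h
    · exact h
    · simp
  obtain ⟨N, hN1, hN2⟩ := common_subseq (μ := μ) (fun k N => if k % 2 = 0 then
    tavg U (l (k / 2)) N ((memLp_bdd (μ := μ) hg hg1).toLp g) else K (k / 2) N) fun k => by
      by_cases hk : k % 2 = 0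
      · simp only [if_pos hk]
        exact tavg_tendsto_zero U (l (k / 2)) (hl1 (k / 2)) _ horth
      · simp only [if_neg hk]
        exact hK (k / 2)
  have hNlim : Tendsto N atTop atTop := tendsto_atTop_mono hN1 tendsto_id
  have hfou : ∀ᵐ x ∂μ, ∀ z : ℂ, ‖z‖ = 1 → Tendsto (fun i => ((N i : ℕ) : ℂ)⁻¹ *
      ∑ n ∈ range (N i), z ^ n * g (T^[n] x)) atTop (𝓝 0) := by
    have e1 : ∀ᵐ x ∂μ, ∀ k i, (tavg U (l k) (N i) ((memLp_bdd (μ := μ) hg hg1).toLp g) :
        Lp ℂ 2 μ) x = ((N i : ℕ) : ℂ)⁻¹ * ∑ n ∈ range (N i), (l k) ^ n * g (T^[n] x) := by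
      rw [ae_all_iff]; intro k
      rw [ae_all_iff]; intro i
      exact avg_coe hT (memLp_bdd (μ := μ) hg hg1) (l k) (N i)
    filter_upwards [hN2, e1, hfr] with x h1 h2 h3 z hz
    by_cases hzΛ : z ∈ Λ
    · have : z ∈ Set.range f := by rw [← hf]; exact Or.inl hzΛ
      obtain ⟨k, rfl⟩ := this
      have h4 : l k = f k := by simp only [hl]; rw [if_pos hz]
      have h5 := h1 (2 * k)
      have e2 : (2 * k) % 2 = 0 := by omega
      have e3 : (2 * k) / 2 = k := by omega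
      simp only [e3, if_pos e2] at h5
      refine h5.congr fun i => ?_
      rw [h2 k i, h4]
    · refine h3 N hNlim (fun k => ?_) z hz hzΛ
      have h5 := h1 (2 * k + 1)
      have e2 : ¬ (2 * k + 1) % 2 = 0 := by omega
      have e3 : (2 * k + 1) / 2 = k := by omega
      simp only [e3, if_neg e2] at h5
      exact h5
  -- the limit of the quadratic forms
  set D : ℕ → Ω → ℂ := fun i x => (((N i : ℕ) : ℂ) ^ 2)⁻¹ * ∑ n ∈ range (N i),
      ∑ m ∈ range (N i), g (T^[n] x) * conj (g (T^[m] x)) * conj (Gam (fun k => p k x) n m) with hD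
  have hDlim : ∀ᵐ x ∂μ, Tendsto (fun i => D i x) atTop (𝓝 0) := by
    filter_upwards [hcorr, hfou] with x h1 h2
    exact det (fun n => g (T^[n] x)) (fun n => hg1 _) (fun k => p k x) J hJlim h1 N h2
  have hpb : ∀ᵐ x ∂μ, ∀ k, ‖p k x‖ ≤ 1 := by
    filter_upwards [hcorr] with x h1 k
    refine le_of_tendsto (h1 k).norm (Eventually.of_forall fun i => ?_)
    rw [norm_mul, norm_inv, Complex.norm_natCast]
    rcases Nat.eq_zero_or_pos (J i) with h | h
    · rw [h]; simp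
    have hJ0 : (0 : ℝ) < (J i : ℕ) := by exact_mod_cast h
    rw [inv_mul_le_iff₀ hJ0, mul_one]
    refine (norm_sum_le _ _).trans ?_
    calc ∑ j ∈ range (J i), ‖g (T^[j + k] x) * conj (g (T^[j] x))‖
        ≤ ∑ j ∈ range (J i), (1 : ℝ) := by
          refine Finset.sum_le_sum fun j _ => ?_
          rw [norm_mul, RCLike.norm_conj]
          exact mul_le_one₀ (hg1 _) (norm_nonneg _) (hg1 _)
      _ = (J i : ℕ) := by simp
  have hterm : ∀ᵐ x ∂μ, ∀ n m, ‖g (T^[n] x) * conj (g (T^[m] x)) *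
      conj (Gam (fun k => p k x) n m)‖ ≤ 1 := by
    filter_upwards [hpb] with x h1 n m
    rw [norm_mul, norm_mul, RCLike.norm_conj, RCLike.norm_conj]
    have h2 : ‖Gam (fun k => p k x) n m‖ ≤ 1 := by
      unfold Gam
      split_ifs
      · exact h1 _
      · rw [RCLike.norm_conj]; exact h1 _
    exact mul_le_one₀ (mul_le_one₀ (hg1 _) (norm_nonneg _) (hg1 _)) (norm_nonneg _) h2
  have hpm : ∀ k, Measurable (fun x => p k x) := fun k => (Lp.stronglyMeasurable (p k)).measurable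
  have hTi : ∀ k, Measurable (fun x => g (T^[k] x)) := fun k =>
    hg.comp (hT.measurable.iterate k)
  have htm : ∀ n m, Measurable (fun x => g (T^[n] x) * conj (g (T^[m] x)) *
      conj (Gam (fun k => p k x) n m)) := by
    intro n m
    refine ((hTi n).mul (Complex.continuous_conj.measurable.comp (hTi m))).mul
      (Complex.continuous_conj.measurable.comp ?_)
    unfold Gam
    split_ifs
    · exact hpm _
    · exact Complex.continuous_conj.measurable.comp (hpm _)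
  have htint : ∀ n m, Integrable (fun x => g (T^[n] x) * conj (g (T^[m] x)) *
      conj (Gam (fun k => p k x) n m)) μ := fun n m =>
    Integrable.of_bound (htm n m).aestronglyMeasurable 1 (hterm.mono fun x hx => hx n m)
  have hDint : ∀ i, ∫ x, D i x ∂μ = ((((N i : ℕ) : ℝ) ^ 2)⁻¹ *
      ∑ n ∈ range (N i), ∑ m ∈ range (N i), ‖p (dd n m)‖ ^ 2 : ℝ) := by
    intro i
    simp only [hD]
    rw [integral_const_mul, integral_finsetSum _ fun n _ =>
      integrable_finsetSum _ fun m _ => htint n m]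
    push_cast
    congr 1
    refine Finset.sum_congr rfl fun n _ => ?_
    rw [integral_finsetSum _ fun m _ => htint n m]
    refine Finset.sum_congr rfl fun m _ => ?_
    rw [pair_int hT hg hg1 p hp n m]
    push_cast; rfl
  have hconv : Tendsto (fun i => ∫ x, D i x ∂μ) atTop (𝓝 (∫ x, (0 : ℂ) ∂μ)) := by
    refine tendsto_integral_of_dominated_convergence (fun _ => (1 : ℝ)) (fun i => ?_)
      (integrable_const _) (fun i => ?_) hDlim
    · exact (Measurable.const_mul (Finset.measurable_sum _ fun n _ =>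
        Finset.measurable_sum _ fun m _ => htm n m) _).aestronglyMeasurable
    · filter_upwards [hterm] with x hx
      simp only [hD]
      rw [norm_mul, norm_inv, norm_pow, Complex.norm_natCast]
      rcases Nat.eq_zero_or_pos (N i) with h | h
      · rw [h]; simp
      have hN0 : (0 : ℝ) < (N i : ℕ) := by exact_mod_cast h
      have hN2 : (0 : ℝ) < ((N i : ℕ) : ℝ) ^ 2 := by positivity
      rw [inv_mul_le_iff₀ hN2, mul_one]
      refine (norm_sum_le _ _).trans ?_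
      calc ∑ n ∈ range (N i), ‖∑ m ∈ range (N i), g (T^[n] x) * conj (g (T^[m] x)) *
            conj (Gam (fun k => p k x) n m)‖
          ≤ ∑ n ∈ range (N i), ∑ m ∈ range (N i), (1 : ℝ) :=
            Finset.sum_le_sum fun n _ => (norm_sum_le _ _).trans
              (Finset.sum_le_sum fun m _ => hx n m)
        _ = ((N i : ℕ) : ℝ) ^ 2 := by simp [sq]
  simp_rw [hDint] at hconv
  have hconv2 := (Complex.continuous_re.tendsto _).comp hconv
  simp only [integral_zero, Function.comp_def, Complex.ofReal_re, Complex.zero_re] at hconv2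
  obtain ⟨i, hi1, hi2⟩ := ((hconv2.eventually (gt_mem_nhds hε)).and (eventually_ge_atTop 1)).exists
  exact ⟨N i, hi2.trans (hN1 i), hi1.le⟩

/-- nonnegative sums over multiples -/
lemma sum_mul_le (F : ℕ → ℝ) (hF : ∀ d, 0 ≤ F d) (H N s : ℕ) (hs : 1 ≤ s)
    (hHN : ∀ h < H, s * h < N) : ∑ h ∈ range H, F (s * h) ≤ ∑ n ∈ range N, F n := by
  have hinj : Set.InjOn (fun d => s * d) (range H : Finset ℕ) := by
    intro a _ b _ hab
    exact Nat.eq_of_mul_eq_mul_left hs hab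
  rw [← Finset.sum_image (f := F) (g := fun d => s * d) hinj]
  refine Finset.sum_le_sum_of_subset_of_nonneg ?_ fun _ _ _ => hF _
  intro d hd
  simp only [mem_image, mem_range] at hd ⊢
  obtain ⟨a, ha, rfl⟩ := hd
  exact hHN a ha

/-- one correlation integral is bounded by the norm of the ergodic average -/
lemma corr_le {T : Ω → Ω} (hT : MeasurePreserving T μ μ) {g : Ω → ℂ} (hg : Measurable g)
    (hg1 : ∀ x, ‖g x‖ ≤ 1) (J a b : ℕ) :
    ∫ x, ‖(J : ℂ)⁻¹ * ∑ j ∈ range J, g (T^[a + j] x) * conj (g (T^[b + j] x))‖ ∂μ ≤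
      ‖tavg (koop hT) 1 J ((memLp_bdd (μ := μ) (Gk_meas hT.measurable hg (dd a b))
        (Gk_bdd T hg1 (dd a b))).toLp (Gk T g (dd a b)))‖ := by
  have key : ∀ a b : ℕ, b ≤ a →
      ∫ x, ‖(J : ℂ)⁻¹ * ∑ j ∈ range J, g (T^[a + j] x) * conj (g (T^[b + j] x))‖ ∂μ ≤
      ‖tavg (koop hT) 1 J ((memLp_bdd (μ := μ) (Gk_meas hT.measurable hg (a - b))
        (Gk_bdd T hg1 (a - b))).toLp (Gk T g (a - b)))‖ := by
    intro a b hab
    have hm : Measurable (fun y => ‖(J : ℂ)⁻¹ * ∑ j ∈ range J, Gk T g (a - b) (T^[j] y)‖) :=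
      (Measurable.const_mul (Finset.measurable_sum _ fun j _ =>
        (Gk_meas hT.measurable hg (a - b)).comp (hT.measurable.iterate j)) _).norm
    have e1 : ∫ x, ‖(J : ℂ)⁻¹ * ∑ j ∈ range J, g (T^[a + j] x) * conj (g (T^[b + j] x))‖ ∂μ =
        ∫ x, ‖(J : ℂ)⁻¹ * ∑ j ∈ range J, Gk T g (a - b) (T^[j] (T^[b] x))‖ ∂μ := by
      refine integral_congr_ae (Eventually.of_forall fun x => ?_)
      simp only
      congr 2
      refine Finset.sum_congr rfl fun j _ => ?_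
      have q1 : a + j = (j + (a - b)) + b := by omega
      have q2 : b + j = j + b := by omega
      rw [Gk_iter, ← Function.iterate_add_apply, ← Function.iterate_add_apply, q1, q2]
    rw [e1, integral_comp_mp (hT.iterate b) hm]
    refine le_trans (le_of_eq ?_) (L1_le_L2 _)
    refine integral_congr_ae ?_
    filter_upwards [avg_coe hT (memLp_bdd (μ := μ) (Gk_meas hT.measurable hg (a - b))
        (Gk_bdd T hg1 (a - b))) 1 J] with x hx
    rw [hx]
    simp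
  by_cases h : b ≤ a
  · have : dd a b = a - b := by unfold dd; omega
    rw [this]
    exact key a b h
  · have : dd a b = b - a := by unfold dd; omega
    rw [this]
    refine le_trans (le_of_eq ?_) (key b a (not_le.1 h).le)
    refine integral_congr_ae (Eventually.of_forall fun x => ?_)
    simp only
    rw [← RCLike.norm_conj]
    congr 1
    rw [map_mul, map_sum, map_inv₀, Complex.conj_natCast]
    congr 1
    refine Finset.sum_congr rfl fun j _ => ?_
    rw [map_mul, Complex.conj_conj]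
    ring

/-- **The correlation condition from countably many frequencies.** -/
theorem ctrl_of_freq {T : Ω → Ω} (hT : MeasurePreserving T μ μ) {g : Ω → ℂ} (hg : Measurable g)
    (hg1 : ∀ x, ‖g x‖ ≤ 1)
    (horth : (memLp_bdd (μ := μ) hg hg1).toLp g ∈ (EigSpan (koop hT))ᗮ)
    (hfreq : FreqCond2 μ T g) (s : ℕ) (hs1 : 1 ≤ s) (hs2 : s ≤ 2) : Ctrl μ T g s := by
  intro ε hε
  choose p hp hlim using fun k => mean_erg (koop hT) ((memLp_bdd (μ := μ)
    (Gk_meas hT.measurable hg k) (Gk_bdd T hg1 k)).toLp (Gk T g k))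
  have hlim' : ∀ k, Tendsto (fun J : ℕ => tavg (koop hT) 1 J ((memLp_bdd (μ := μ)
      (Gk_meas hT.measurable hg k) (Gk_bdd T hg1 k)).toLp (Gk T g k))) atTop (𝓝 (p k)) := by
    intro k
    refine (hlim k).congr fun J => ?_
    rw [tavg_one]
  obtain ⟨N, hN1, hN⟩ := toeplitz_small hT hg hg1 horth hfreq p hp hlim' (ε ^ 2 / 16)
    (by positivity)
  obtain ⟨H, hH1, hHN, hNH⟩ : ∃ H : ℕ, 1 ≤ H ∧ (∀ h < H, s * h < N) ∧ N ≤ 2 * H := by
    refine ⟨(N + s - 1) / s, ?_, ?_, ?_⟩ <;> interval_cases s <;> (try intro h hh) <;> omega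
  have hH0 : (0 : ℝ) < H := by exact_mod_cast hH1
  have hN0 : (0 : ℝ) < N := by exact_mod_cast hN1
  -- choose J
  have hJev : ∀ᶠ J : ℕ in atTop, ∀ h ∈ range H, ∀ h' ∈ range H,
      ‖tavg (koop hT) 1 J ((memLp_bdd (μ := μ) (Gk_meas hT.measurable hg (dd (s * h) (s * h')))
        (Gk_bdd T hg1 (dd (s * h) (s * h')))).toLp (Gk T g (dd (s * h) (s * h'))))‖ ≤
        ‖p (dd (s * h) (s * h'))‖ + ε / 4 := by
    rw [Filter.eventually_all_finset]; intro h _
    rw [Filter.eventually_all_finset]; intro h' _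
    exact ((hlim' (dd (s * h) (s * h'))).norm.eventually
      (gt_mem_nhds (show ‖p (dd (s * h) (s * h'))‖ < ‖p (dd (s * h) (s * h'))‖ + ε / 4 by
        linarith))).mono fun J hJ => hJ.le
  obtain ⟨J, hJ, hJ1⟩ := (hJev.and (eventually_ge_atTop 1)).exists
  refine ⟨H, J, hH1, hJ1, ?_⟩
  have hbound : ∑ h ∈ range H, ∑ h' ∈ range H,
      ∫ x, ‖(J : ℂ)⁻¹ * ∑ j ∈ range J, g (T^[s * h + j] x) *
        (starRingEnd ℂ) (g (T^[s * h' + j] x))‖ ∂μ ≤
      ∑ h ∈ range H, ∑ h' ∈ range H,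
        (ε ⁻¹ * ‖p (dd (s * h) (s * h'))‖ ^ 2 + (ε / 4 + ε / 4)) := by
    refine Finset.sum_le_sum fun h hh => Finset.sum_le_sum fun h' hh' => ?_
    refine (corr_le hT hg hg1 J (s * h) (s * h')).trans ((hJ h hh h' hh').trans ?_)
    have h5 : ε⁻¹ * ‖p (dd (s * h) (s * h'))‖ ^ 2 + ε / 4 - ‖p (dd (s * h) (s * h'))‖ =
        ε⁻¹ * (‖p (dd (s * h) (s * h'))‖ - ε / 2) ^ 2 := by
      field_simp; ring
    have h6 : 0 ≤ ε⁻¹ * (‖p (dd (s * h) (s * h'))‖ - ε / 2) ^ 2 := by positivity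
    linarith
  have hsum : ∑ h ∈ range H, ∑ h' ∈ range H, ‖p (dd (s * h) (s * h'))‖ ^ 2 ≤
      ∑ n ∈ range N, ∑ m ∈ range N, ‖p (dd n m)‖ ^ 2 := by
    calc ∑ h ∈ range H, ∑ h' ∈ range H, ‖p (dd (s * h) (s * h'))‖ ^ 2
        ≤ ∑ h ∈ range H, ∑ m ∈ range N, ‖p (dd (s * h) m)‖ ^ 2 :=
          Finset.sum_le_sum fun h _ => sum_mul_le (fun m => ‖p (dd (s * h) m)‖ ^ 2)
            (fun d => by positivity) H N s hs1 hHN
      _ ≤ _ := sum_mul_le (fun n => ∑ m ∈ range N, ‖p (dd n m)‖ ^ 2)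
            (fun d => by positivity) H N s hs1 hHN
  have hN' : ∑ n ∈ range N, ∑ m ∈ range N, ‖p (dd n m)‖ ^ 2 ≤ (N : ℝ) ^ 2 * (ε ^ 2 / 16) := by
    rwa [inv_mul_le_iff₀ (by positivity)] at hN
  have hNH' : (N : ℝ) ^ 2 ≤ 4 * (H : ℝ) ^ 2 := by
    have : (N : ℝ) ≤ 2 * H := by exact_mod_cast hNH
    nlinarith
  calc ((H : ℝ) ^ 2)⁻¹ * ∑ h ∈ range H, ∑ h' ∈ range H,
      ∫ x, ‖(J : ℂ)⁻¹ * ∑ j ∈ range J, g (T^[s * h + j] x) *
        (starRingEnd ℂ) (g (T^[s * h' + j] x))‖ ∂μ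
      ≤ ((H : ℝ) ^ 2)⁻¹ * ∑ h ∈ range H, ∑ h' ∈ range H,
        (ε ⁻¹ * ‖p (dd (s * h) (s * h'))‖ ^ 2 + (ε / 4 + ε / 4)) := by gcongr
    _ = ((H : ℝ) ^ 2)⁻¹ * (ε⁻¹ * ∑ h ∈ range H, ∑ h' ∈ range H,
          ‖p (dd (s * h) (s * h'))‖ ^ 2) + ε / 2 := by
        simp only [Finset.sum_add_distrib, ← Finset.mul_sum, sum_const, card_range, nsmul_eq_mul]
        field_simp; ring
    _ ≤ ((H : ℝ) ^ 2)⁻¹ * (ε⁻¹ * ((4 * (H : ℝ) ^ 2) * (ε ^ 2 / 16))) + ε / 2 := by
        have h7 : ∑ h ∈ range H, ∑ h' ∈ range H, ‖p (dd (s * h) (s * h'))‖ ^ 2 ≤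
            (4 * (H : ℝ) ^ 2) * (ε ^ 2 / 16) :=
          hsum.trans (hN'.trans (mul_le_mul_of_nonneg_right hNH' (by positivity)))
        gcongr
    _ = ε / 4 + ε / 2 := by field_simp; ring
    _ ≤ ε := by linarith

end

end Pool.Agent.V5helper2.CF
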