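import Mathlib
import Pool.Agent.Helper498.NCR.Final
import Pool.Agent.V5helper2.CF.Main

set_option autoImplicit false
open Finset Filter Topology MeasureTheory
open scoped ComplexConjugate ENNReal

namespace Pool.Agent.V5helper2.CF

open Pool.Agent.Helper498.NCR

noncomputable section

variable {Ω : Type*} [MeasurableSpace Ω] {μ : Measure Ω} [IsProbabilityMeasure μ]

lemma norm_tavg_le {E : Type*} [NormedAddCommGroup E] [InnerProductSpace ℂ E] (U : E →ₗᵢ[ℂ] E)
    (x : E) (N : ℕ) : ‖tavg U 1 N x‖ ≤ ‖x‖ := by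
  rw [tavg_one, norm_smul, norm_inv, Complex.norm_natCast]
  rcases Nat.eq_zero_or_pos N with h | h
  · subst h; simp
  have hN0 : (0 : ℝ) < N := by exact_mod_cast h
  rw [inv_mul_le_iff₀ hN0]
  refine (norm_sum_le _ _).trans ?_
  simp

/-- Subtracting the compact part keeps the frequency condition. -/
theorem freq_sub {T : Ω → Ω} (hT : MeasurePreserving T μ μ) {F a : Ω → ℂ} (ha : Measurable a)
    (ha1 : ∀ x, ‖a x‖ ≤ 1) (haE : (memLp_bdd (μ := μ) ha ha1).toLp a ∈ Ec (koop hT))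
    (hF : FreqCond μ T F) : FreqCond2 μ T (fun x => F x - a x) := by
  obtain ⟨Λ, hΛ, hfr⟩ := hF
  set U := koop hT with hU
  set y := (memLp_bdd (μ := μ) ha ha1).toLp a with hy
  choose z hz1 hz2 using fun j : ℕ => approx_of_closure U y haE ((1 / 2 : ℝ) ^ j) (by positivity)
  choose ι inst e l hl he hz using hz1
  set r : ℕ → Lp ℂ 2 μ := fun j => y - z j with hr
  set R : ℕ → Ω → ℂ := fun j x => ((‖r j x‖ : ℝ) : ℂ) with hR
  have hRm : ∀ j, MemLp (R j) 2 μ := fun j => ((Lp.memLp (r j)).norm).ofReal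
  have hRn : ∀ j, ‖(hRm j).toLp (R j)‖ ≤ (1 / 2 : ℝ) ^ j := by
    intro j
    rw [Lp.norm_toLp]
    have e1 : eLpNorm (R j) 2 μ = eLpNorm (r j) 2 μ :=
      eLpNorm_congr_norm_ae (Eventually.of_forall fun x => by simp [hR])
    rw [e1, ← Lp.norm_def]
    exact hz2 j
  choose p hp hlim using fun j => mean_erg U ((hRm j).toLp (R j))
  have hlim' : ∀ j, Tendsto (fun N => tavg U 1 N ((hRm j).toLp (R j))) atTop (𝓝 (p j)) := by
    intro j
    refine (hlim j).congr fun J => ?_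
    rw [tavg_one]
  have hpn : ∀ j, ‖p j‖ ≤ (1 / 2 : ℝ) ^ j := fun j =>
    le_of_tendsto (hlim' j).norm (Eventually.of_forall fun N => (norm_tavg_le U _ N).trans (hRn j))
  have hp0 := ae_tendsto_zero_of_small p hpn
  refine ⟨Λ ∪ ⋃ j, Set.range (fun i : ι j => (l j i)⁻¹), ?_, fun j N =>
    tavg U 1 N ((hRm j).toLp (R j)) - p j, fun j => ?_, ?_⟩
  · refine hΛ.union (Set.countable_iUnion fun j => ?_)
    exact Set.countable_range _
  · simpa using (hlim' j).sub_const (p j)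
  -- a.e. decomposition
  have hdec : ∀ᵐ x ∂μ, ∀ j n : ℕ, a (T^[n] x) =
      (∑ i, l j i ^ n * e j i x) + r j (T^[n] x) := by
    rw [ae_all_iff]; intro j
    rw [ae_all_iff]; intro n
    have h1 : ∀ᵐ x ∂μ, a x = ∑ i, e j i x + r j x := by
      have e1 := (memLp_bdd (μ := μ) ha ha1).coeFn_toLp
      have e2 := Lp.coeFn_sub y (z j)
      have e3 := Lp.coeFn_finsetSum (Finset.univ) (e j)
      rw [← hz j] at e3
      filter_upwards [e1, e2, e3] with x g1 g2 g3
      rw [hr, g2, Pi.sub_apply, g3, Finset.sum_apply, hy, g1]; ring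
    have h2 : ∀ᵐ x ∂μ, a (T^[n] x) = ∑ i, e j i (T^[n] x) + r j (T^[n] x) :=
      (hT.iterate n).quasiMeasurePreserving.ae h1
    have h3 : ∀ᵐ x ∂μ, ∀ i, e j i (T^[n] x) = l j i ^ n * e j i x := by
      rw [ae_all_iff]; intro i
      have g1 := koop_pow_coe hT n (e j i)
      rw [← hU, eig_pow U (he j i)] at g1
      filter_upwards [g1, Lp.coeFn_smul (l j i ^ n) (e j i)] with x q1 q2
      rw [← q1, q2, Pi.smul_apply, smul_eq_mul]
    filter_upwards [h2, h3] with x g2 g3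
    rw [g2]
    congr 1
    exact Finset.sum_congr rfl fun i _ => g3 i
  have hcoe : ∀ᵐ x ∂μ, ∀ j N : ℕ, (tavg U 1 N ((hRm j).toLp (R j)) - p j : Lp ℂ 2 μ) x =
      (N : ℂ)⁻¹ * ∑ n ∈ range N, ((‖r j (T^[n] x)‖ : ℝ) : ℂ) - p j x := by
    rw [ae_all_iff]; intro j
    rw [ae_all_iff]; intro N
    filter_upwards [Lp.coeFn_sub (tavg U 1 N ((hRm j).toLp (R j))) (p j),
      avg_coe hT (hRm j) 1 N] with x h1 h2
    rw [h1, Pi.sub_apply]
    congr 1
    refine h2.trans ?_
    congr 1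
    refine Finset.sum_congr rfl fun n _ => ?_
    rw [one_pow, one_mul]
  filter_upwards [hdec, hcoe, hp0, hfr] with x h1 h2 h3 h4 N hN hK z hz hzΛ
  have hzΛ1 : z ∉ Λ := fun h => hzΛ (Or.inl h)
  have hzl : ∀ j i, z * l j i ≠ 1 := by
    intro j i h
    apply hzΛ
    refine Or.inr (Set.mem_iUnion.2 ⟨j, i, ?_⟩)
    have : l j i ≠ 0 := fun h0 => by have := hl j i; rw [h0] at this; simp at this
    field_simp
    rw [← h]; ring
  have hFlim := (h4 z hz hzΛ1).comp hN
  have halim : Tendsto (fun i => ((N i : ℕ) : ℂ)⁻¹ * ∑ n ∈ range (N i), z ^ n * a (T^[n] x))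
      atTop (𝓝 0) := by
    rw [tendsto_zero_iff_norm_tendsto_zero]
    refine tendsto_order.2 ⟨fun b hb => Eventually.of_forall fun i =>
      lt_of_lt_of_le hb (norm_nonneg _), fun ε hε => ?_⟩
    have h5 : ∀ᶠ j in atTop, ‖p j x‖ < ε := by
      have := h3.norm
      rw [norm_zero] at this
      exact this.eventually (gt_mem_nhds hε)
    obtain ⟨j, hj⟩ := h5.exists
    have hb : ∀ i, ‖((N i : ℕ) : ℂ)⁻¹ * ∑ n ∈ range (N i), z ^ n * a (T^[n] x)‖ ≤
        (∑ m, ‖((N i : ℕ) : ℂ)⁻¹ * ∑ n ∈ range (N i), (z * l j m) ^ n‖ * ‖e j m x‖) +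
        ‖((N i : ℕ) : ℂ)⁻¹ * ∑ n ∈ range (N i), ((‖r j (T^[n] x)‖ : ℝ) : ℂ)‖ := by
      intro i
      have e1 : ((N i : ℕ) : ℂ)⁻¹ * ∑ n ∈ range (N i), z ^ n * a (T^[n] x) =
          (∑ m, (((N i : ℕ) : ℂ)⁻¹ * ∑ n ∈ range (N i), (z * l j m) ^ n) * e j m x) +
          ((N i : ℕ) : ℂ)⁻¹ * ∑ n ∈ range (N i), z ^ n * r j (T^[n] x) := by
        have e2 : ∀ n ∈ range (N i), z ^ n * a (T^[n] x) =
            (∑ m, (z * l j m) ^ n * e j m x) + z ^ n * r j (T^[n] x) := by
          intro n _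
          rw [h1 j n, mul_add, Finset.mul_sum]
          congr 1
          refine Finset.sum_congr rfl fun m _ => ?_
          rw [mul_pow]; ring
        rw [Finset.sum_congr rfl e2, Finset.sum_add_distrib, mul_add, Finset.sum_comm,
          Finset.mul_sum]
        congr 1
        refine Finset.sum_congr rfl fun m _ => ?_
        rw [← Finset.sum_mul]; ring
      rw [e1]
      refine (norm_add_le _ _).trans (add_le_add ?_ ?_)
      · refine (norm_sum_le _ _).trans (Finset.sum_le_sum fun m _ => ?_)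
        rw [norm_mul]
      · have e3 : ((N i : ℕ) : ℂ)⁻¹ * ∑ n ∈ range (N i), ((‖r j (T^[n] x)‖ : ℝ) : ℂ) =
            ((((N i : ℕ) : ℝ)⁻¹ * ∑ n ∈ range (N i), ‖r j (T^[n] x)‖ : ℝ) : ℂ) := by
          push_cast; rfl
        rw [e3, Complex.norm_real, Real.norm_of_nonneg (by positivity), norm_mul, norm_inv,
          Complex.norm_natCast]
        refine mul_le_mul_of_nonneg_left ?_ (by positivity)
        refine (norm_sum_le _ _).trans (Finset.sum_le_sum fun n _ => ?_)
        rw [norm_mul, norm_pow, hz, one_pow, one_mul]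
    have hblim : Tendsto (fun i => (∑ m, ‖((N i : ℕ) : ℂ)⁻¹ * ∑ n ∈ range (N i),
        (z * l j m) ^ n‖ * ‖e j m x‖) +
        ‖((N i : ℕ) : ℂ)⁻¹ * ∑ n ∈ range (N i), ((‖r j (T^[n] x)‖ : ℝ) : ℂ)‖) atTop
        (𝓝 ((∑ m : ι j, (0 : ℝ)) + ‖p j x‖)) := by
      refine Tendsto.add (tendsto_finsetSum _ fun m _ => ?_) ?_
      · have c1 := char_avg (z * l j m) (by rw [norm_mul, hz, hl, one_mul])
        rw [if_neg (hzl j m)] at c1
        have c2 := ((c1.comp hN).norm).mul_const ‖e j m x‖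
        simpa [Function.comp_def] using c2
      · have c3 := hK j
        simp only [h2] at c3
        have c4 := (c3.add_const (p j x)).norm
        simpa using c4
    simp only [Finset.sum_const_zero, zero_add] at hblim
    filter_upwards [hblim.eventually (gt_mem_nhds hj)] with i hi
    exact lt_of_le_of_lt (hb i) hi
  have h9 := hFlim.sub halim
  rw [sub_zero] at h9
  refine h9.congr fun i => ?_
  simp only [Function.comp_apply]
  rw [← mul_sub, ← Finset.sum_sub_distrib]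
  congr 1
  exact Finset.sum_congr rfl fun n _ => by ring

end

end Pool.Agent.V5helper2.CF
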