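import Mathlib
import Pool.Agent.V5helper2.CF.Loc
import Pool.Agent.V5helper2.CF.Abs

set_option autoImplicit false
open Finset Filter Topology MeasureTheory
open scoped ComplexConjugate ENNReal

namespace Pool.Agent.V5helper2.CF

open Pool.Agent.Helper498.NCR

noncomputable section

variable {Ω : Type*} [MeasurableSpace Ω] {μ : Measure Ω} [IsProbabilityMeasure μ]

omit [MeasurableSpace Ω] in
lemma sub_bdd (A : Set Ω) {f : Ω → ℝ} (h0 : ∀ x, 0 ≤ f x) (h1 : ∀ x, f x ≤ 1) (x : Ω) :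
    ‖cind A x - (f x : ℂ)‖ ≤ 1 := diff_norm (cind_I01 A x) (h0 x) (h1 x)

lemma sub_meas {A : Set Ω} (hA : MeasurableSet A) {f : Ω → ℝ} (hf : Measurable f) :
    Measurable (fun x => cind A x - (f x : ℂ)) :=
  (cind_meas hA).sub (Complex.measurable_ofReal.comp hf)

/-- the correlation condition for the non-compact part of an indicator -/
theorem ctrl_ind {T : Ω → Ω} (hT : MeasurePreserving T μ μ) {A : Set Ω} (hA : MeasurableSet A)
    (hF : FreqCond μ T (cind A)) {f : Ω → ℝ} (hf : Measurable f) (h0 : ∀ x, 0 ≤ f x)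
    (h1 : ∀ x, f x ≤ 1) (hE : ∀ h : MemLp (fun x => (f x : ℂ)) 2 μ, h.toLp _ ∈ Ec (koop hT))
    (ho : ∀ h : MemLp (fun x => cind A x - (f x : ℂ)) 2 μ, h.toLp _ ∈ (EigSpan (koop hT))ᗮ)
    (s : ℕ) (hs1 : 1 ≤ s) (hs2 : s ≤ 2) :
    Ctrl μ T (fun x => cind A x - (f x : ℂ)) s := by
  have hfm : Measurable (fun x => (f x : ℂ)) := Complex.measurable_ofReal.comp hf
  have hf1 : ∀ x, ‖(f x : ℂ)‖ ≤ 1 := fun x => by
    rw [Complex.norm_real, Real.norm_of_nonneg (h0 x)]; exact h1 x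
  exact ctrl_of_freq hT (sub_meas hA hf) (sub_bdd A h0 h1) (ho _)
    (freq_sub hT hfm hf1 (hE _) hF) s hs1 hs2

lemma twist_meas {S : Ω → Ω} (hS : MeasurePreserving S μ μ) {A : Set Ω} (hA : MeasurableSet A)
    (c : ℂ) (k : ℕ) : Measurable (fun x => c ^ k * cind A (S^[k] x)) :=
  ((cind_meas hA).comp (hS.measurable.iterate k)).const_mul _

omit [MeasurableSpace Ω] in
lemma twist_bdd (S : Ω → Ω) (A : Set Ω) (c : ℂ) (hc : ‖c‖ = 1) (k : ℕ) (x : Ω) :
    ‖c ^ k * cind A (S^[k] x)‖ ≤ 1 := by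
  rw [norm_mul, norm_pow, hc, one_pow, one_mul]; exact cind_norm A _

end

end Pool.Agent.V5helper2.CF
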